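import Pool.Agent.LevyThin.RankD

set_option autoImplicit false

/-!
Odd numbers `m` all of whose representations `m = 2 p + q` by primes have a large `p`.
-/

namespace Pool.Agent.Results.MP_5be99d_nt.LargeLeastSummand

/-- There is `c > 0` and there are arbitrarily large odd `m` such that
`p > c log m (log log m) ^ 2 / (log log log m) ^ 2` for all primes `p, q` with `m = 2 p + q`. -/
theorem result : ∃ c : ℝ, 0 < c ∧ ∀ N : ℕ, ∃ m : ℕ, N ≤ m ∧ Odd m ∧
    ∀ p q : ℕ, p.Prime → q.Prime → m = 2 * p + q →
      c * (Real.log m * Real.log (Real.log m) ^ 2 / Real.log (Real.log (Real.log m)) ^ 2) <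
        (p : ℝ) :=
  Pool.Agent.LevyThin.rank_main

end Pool.Agent.Results.MP_5be99d_nt.LargeLeastSummand
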