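import Pool.Agent.LevyThin.LeastB

set_option autoImplicit false

/-!
The order of the least prime `p` with `m - 2 p` prime: for `C ≤ 1` the proportion of the `m` with
`p ≤ C log m log log m` is of exact order `C`.
-/

namespace Pool.Agent.Results.MP_5be99d_nt.LeastSummand

open Pool.Agent.LevyThin

/-- There is `c > 0` with the following properties. For all `C, δ` in `(0, 1]`, all large `X` and
all sets `Q` of at least `δ X / log X` primes up to `X` at least `c C δ ^ 2 X` of the integers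
`m ≤ 2 X` are of the form `m = 2 p + q`, `p` and `q` odd primes, `q ∈ Q`,
`p ≤ C log m log log m`. For all `C` in `(0, 1]` and all large `X` at least `c C X` of the integers
`m ≤ X` are of the form `m = 2 p + q`, `p` and `q` odd primes, `p ≤ C log m log log m`. Conversely,
for all `C > 0` and all large `X` at most `3 C X` of the integers `m ≤ X` are of the form
`m = 2 p + q`, `p` and `q` primes, `p ≤ C log m log log m`. -/
theorem result : ∃ c : ℝ, 0 < c ∧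
    (∀ C δ : ℝ, 0 < C → C ≤ 1 → 0 < δ → δ ≤ 1 → ∃ X₀ : ℕ, ∀ X : ℕ, X₀ ≤ X →
      ∀ Q : Finset ℕ, (∀ q ∈ Q, q.Prime ∧ q ≤ X) → δ * X / Real.log X ≤ (Q.card : ℝ) →
        c * C * δ ^ 2 * X ≤ (({m : ℕ | m ≤ 2 * X ∧ ∃ p : ℕ, p.Prime ∧ p ≠ 2 ∧ ∃ q ∈ Q, q ≠ 2 ∧
          m = 2 * p + q ∧ (p : ℝ) ≤ C * (Real.log m * Real.log (Real.log m))}.ncard : ℕ) : ℝ)) ∧
    (∀ C : ℝ, 0 < C → C ≤ 1 → ∃ X₀ : ℕ, ∀ X : ℕ, X₀ ≤ X →
      c * C * X ≤ (({m : ℕ | m ≤ X ∧ ∃ p q : ℕ, p.Prime ∧ p ≠ 2 ∧ q.Prime ∧ q ≠ 2 ∧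
        m = 2 * p + q ∧ (p : ℝ) ≤ C * (Real.log m * Real.log (Real.log m))}.ncard : ℕ) : ℝ)) ∧
    (∀ C : ℝ, 0 < C → ∃ X₀ : ℕ, ∀ X : ℕ, X₀ ≤ X →
      (({m : ℕ | m ≤ X ∧ ∃ p q : ℕ, p.Prime ∧ q.Prime ∧
        m = 2 * p + q ∧ (p : ℝ) ≤ C * (Real.log m * Real.log (Real.log m))}.ncard : ℕ) : ℝ) ≤
          3 * C * X) := by
  obtain ⟨c, hc, hlow⟩ := small_lower
  obtain ⟨n0, hn0⟩ := pi_bounds
  refine ⟨c / 4, by positivity, ?_, ?_, ?_⟩
  · intro C δ hC hC1 hδ hδ1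
    obtain ⟨X0, hX0⟩ := hlow C δ hC hC1 hδ hδ1
    refine ⟨X0, fun X hX Q hQ hQc => ?_⟩
    refine le_trans ?_ (hX0 X hX Q hQ hQc)
    have h1 : c / 4 ≤ c := by linarith
    gcongr
  · intro C hC hC1
    obtain ⟨X0, hX0⟩ := hlow C (9 / 10) hC hC1 (by norm_num) (by norm_num)
    refine ⟨2 * (max X0 (max n0 2)) + 2, fun X hX => ?_⟩
    have h1 : max X0 (max n0 2) ≤ X / 2 := by omega
    have h2 : X0 ≤ X / 2 := (le_max_left _ _).trans h1
    have h3 : n0 ≤ X / 2 := ((le_max_left _ _).trans (le_max_right _ _)).trans h1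
    have h4 : 2 ≤ X / 2 := ((le_max_right _ _).trans (le_max_right _ _)).trans h1
    have h5 := hX0 (X / 2) h2 ((Finset.range (X / 2 + 1)).filter Nat.Prime) (by
      intro q hq
      rw [Finset.mem_filter, Finset.mem_range] at hq
      exact ⟨hq.2, by omega⟩) (by
      have h6 : ((Finset.range (X / 2 + 1)).filter Nat.Prime).card = Nat.primeCounting (X / 2) := by
        rw [Nat.primeCounting, Nat.primeCounting', Nat.count_eq_card_filter_range]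
      rw [h6, div_le_iff₀ (Real.log_pos (by exact_mod_cast (by omega : 1 < X / 2)))]
      exact (hn0 _ h3).1)
    have h6 : c / 4 * C * X ≤ c * C * (9 / 10) ^ 2 * ((X / 2 : ℕ) : ℝ) := by
      have h7 : X ≤ 3 * (X / 2) := by omega
      have h8 : (X : ℝ) ≤ 3 * ((X / 2 : ℕ) : ℝ) := by exact_mod_cast h7
      have h9 : c / 4 * C * X ≤ c / 4 * C * (3 * ((X / 2 : ℕ) : ℝ)) := by gcongr
      have h10 : c / 4 * C * (3 * ((X / 2 : ℕ) : ℝ)) = 3 / 4 * (c * C * ((X / 2 : ℕ) : ℝ)) := by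
        ring
      have h11 : c * C * (9 / 10) ^ 2 * ((X / 2 : ℕ) : ℝ) =
          81 / 100 * (c * C * ((X / 2 : ℕ) : ℝ)) := by ring
      have h12 : 0 ≤ c * C * ((X / 2 : ℕ) : ℝ) := by positivity
      linarith
    refine h6.trans (h5.trans ?_)
    have hfin : {m : ℕ | m ≤ X ∧ ∃ p q : ℕ, p.Prime ∧ p ≠ 2 ∧ q.Prime ∧ q ≠ 2 ∧
        m = 2 * p + q ∧ (p : ℝ) ≤ C * (Real.log m * Real.log (Real.log m))}.Finite :=
      (Set.finite_Iic X).subset fun _ hm => hm.1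
    have hle : (small C ((Finset.range (X / 2 + 1)).filter Nat.Prime) (X / 2)).ncard ≤
        {m : ℕ | m ≤ X ∧ ∃ p q : ℕ, p.Prime ∧ p ≠ 2 ∧ q.Prime ∧ q ≠ 2 ∧
        m = 2 * p + q ∧ (p : ℝ) ≤ C * (Real.log m * Real.log (Real.log m))}.ncard := by
      apply Set.ncard_le_ncard _ hfin
      rintro m ⟨hm, p, hp, hp2, q, hq, hq2, hmpq, hpm⟩
      exact ⟨by omega, p, q, hp, hp2, (Finset.mem_filter.mp hq).2, hq2, hmpq, hpm⟩
    exact_mod_cast hle
  · exact small_upper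

end Pool.Agent.Results.MP_5be99d_nt.LeastSummand
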