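import Mathlib
import Pool.Agent.HwS.AppLevy
import Pool.Agent.HwS.Exi

open MeasureTheory ProbabilityTheory Filter Topology

namespace Pool.Agent.Results.MP_5be99d_nt.RandomSieve

open Pool.Agent.HwS

theorem result :
    (∃ (Ω : Type) (_ : MeasurableSpace Ω) (μ : Measure Ω) (_ : IsProbabilityMeasure μ)
      (S : ℕ → ℕ → Set Ω), IsStrikes μ S) ∧
    ∀ (Ω : Type) [MeasurableSpace Ω] (μ : Measure Ω) [IsProbabilityMeasure μ]
      (S : ℕ → ℕ → Set Ω), IsStrikes μ S → ∀ z : ℕ, 2 ≤ z → ∀ᵐ ω ∂μ,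
      ∀ᶠ n : ℕ in atTop, ∃ p q : ℕ, Sel z (Kof S ω) p ∧ Sel z (Kof S ω) q ∧
        p % 2 = 1 ∧ q % 2 = 1 ∧ 2 * n + 1 = 2 * p + q :=
  ⟨exists_strikes, fun _ _ _ _ _ hS z hz => levy hS z hz⟩

end Pool.Agent.Results.MP_5be99d_nt.RandomSieve
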